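import Pool.Agent.P.MP_3bd355_an.Ker1

/-! Monotonicity of the even combination of Villat kernels on the real axis. -/

open Set Filter Metric Complex
open scoped Topology ComplexConjugate Real

namespace Pool.Agent.P.MP_3bd355_an

namespace BhP

/-- The geometric sum `u + u ^ 2 + ...`. -/
noncomputable def EE (u : ℝ) : ℝ := u / (1 - u)

theorem inc {P P' Q Q' τ : ℝ} (h : P * P' = Q * Q') (h1 : P * τ < 1) (h2 : P' * τ < 1)
    (h3 : Q * τ < 1) (h4 : Q' * τ < 1) :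
    EE (P * τ) + EE (P' * τ) - EE (Q * τ) - EE (Q' * τ) = (P + P' - Q - Q') *
      (τ * (1 / (1 - P * τ) + P' * τ / (1 - P' * τ)) / ((1 - Q * τ) * (1 - Q' * τ))) := by
  have e1 := (sub_pos.2 h1).ne'
  have e2 := (sub_pos.2 h2).ne'
  have e3 := (sub_pos.2 h3).ne'
  have e4 := (sub_pos.2 h4).ne'
  simp only [EE]
  rw [div_add_div _ _ e1 e2, div_add_div _ _ e1 e2, sub_sub, div_add_div _ _ e3 e4,
    div_sub_div _ _ (mul_ne_zero e1 e2) (mul_ne_zero e3 e4), ← mul_div_assoc, ← mul_div_assoc,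
    ← mul_div_assoc, div_div]
  congr 1
  linear_combination ((P + P') * τ ^ 3 - 2 * τ ^ 2) * h

theorem term {P P' Q Q' σ τ : ℝ} (h : P * P' = Q * Q') (hs : Q + Q' < P + P') (p1 : 0 < P)
    (p2 : 0 < P') (p3 : 0 < Q) (p4 : 0 < Q') (h0 : 0 < σ) (hl : σ < τ) (h1 : P * τ < 1)
    (h2 : P' * τ < 1) (h3 : Q * τ < 1) (h4 : Q' * τ < 1) :
    EE (Q * τ) - EE (Q * σ) + EE (Q' * τ) - EE (Q' * σ) <
      EE (P * τ) - EE (P * σ) + EE (P' * τ) - EE (P' * σ) := by
  have g : ∀ X : ℝ, 0 < X → X * τ < 1 → X * σ < 1 := fun X a b =>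
    (mul_lt_mul_of_pos_left hl a).trans b
  have a := inc h h1 h2 h3 h4
  have b := inc h (g _ p1 h1) (g _ p2 h2) (g _ p3 h3) (g _ p4 h4)
  have e1 := sub_pos.2 h1
  have e2 := sub_pos.2 h2
  have e3 := sub_pos.2 h3
  have e4 := sub_pos.2 h4
  have f1 := sub_pos.2 (g _ p1 h1)
  have f2 := sub_pos.2 (g _ p2 h2)
  have f3 := sub_pos.2 (g _ p3 h3)
  have f4 := sub_pos.2 (g _ p4 h4)
  have hτ := h0.trans hl
  have c : σ * (1 / (1 - P * σ) + P' * σ / (1 - P' * σ)) / ((1 - Q * σ) * (1 - Q' * σ)) <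
      τ * (1 / (1 - P * τ) + P' * τ / (1 - P' * τ)) / ((1 - Q * τ) * (1 - Q' * τ)) := by
    refine div_lt_div₀ (mul_lt_mul hl ?_ (by positivity) hτ.le) ?_ (by positivity) (by positivity)
    · gcongr
    · gcongr
  nlinarith [mul_lt_mul_of_pos_left c (show 0 < P + P' - Q - Q' by linarith)]

theorem sumE {r u : ℝ} (h0 : 0 < r) (h1 : r < 1) (u0 : 0 ≤ u) (u1 : u < 1) :
    Summable fun n : ℕ => EE (r ^ (2 * n) * u) := by
  have hq : ∀ n : ℕ, r ^ (2 * n) ≤ 1 := fun n => pow_le_one₀ h0.le h1.le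
  have hu : ∀ n : ℕ, r ^ (2 * n) * u ≤ u := fun n => mul_le_of_le_one_left u0 (hq n)
  have e := sub_pos.2 u1
  refine Summable.of_nonneg_of_le (fun n => div_nonneg (by positivity) (by linarith [hu n]))
    (fun n => ?_) ((summable_geometric_of_lt_one (sq_nonneg r) (by nlinarith)).mul_right
      (u / (1 - u)))
  rw [← pow_mul, ← mul_div_assoc, EE]
  exact div_le_div_of_nonneg_left (by positivity) e (by linarith [hu n])

/-- The kernel on the real axis. -/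
theorem vk_real (r s : ℝ) : vk r s = (((1 + s) / (1 - s) + 2 * ∑' n : ℕ,
    (r ^ (2 * n + 2) * s / (1 - r ^ (2 * n + 2) * s) - r ^ (2 * n + 2) / (s - r ^ (2 * n + 2))) :
      ℝ) : ℂ) := by
  simp only [vk]
  push_cast
  rfl

theorem vk_im (r s : ℝ) : (vk r s).im = 0 := by rw [vk_real, ofReal_im]

theorem vk_re {r s : ℝ} (h0 : 0 < r) (h1 : r < 1) (ha : r ^ 2 < s) (hb : r ^ 2 * s < 1) :
    (vk r s).re = (1 + s) / (1 - s) + 2 * (∑' n : ℕ, EE (r ^ (2 * n) * (r ^ 2 * s)) -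
      ∑' n : ℕ, EE (r ^ (2 * n) * (r ^ 2 / s))) := by
  have s0 : 0 < s := (pow_pos h0 2).trans ha
  rw [vk_real, ofReal_re, ← (sumE h0 h1 (by positivity) hb).tsum_sub
    (sumE h0 h1 (by positivity) ((div_lt_one s0).2 ha))]
  congr 2
  refine tsum_congr fun n => ?_
  simp only [EE, pow_add]
  congr 1
  · rw [mul_assoc]
  · rw [← mul_div_assoc, ← mul_div_mul_right _ (1 - r ^ (2 * n) * r ^ 2 / s) s0.ne', sub_mul,
      div_mul_cancel₀ _ s0.ne', one_mul]

theorem shift {r u : ℝ} (h0 : 0 < r) (h1 : r < 1) (u0 : 0 ≤ u) (u1 : u < 1) :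
    ∑' n : ℕ, EE (r ^ (2 * n) * (r ^ 2 * u)) = ∑' n : ℕ, EE (r ^ (2 * n) * u) - EE u := by
  rw [(sumE h0 h1 u0 u1).tsum_eq_zero_add]
  simp only [mul_zero, pow_zero, one_mul, add_sub_cancel_left, mul_add, mul_one, pow_add, mul_assoc]

theorem even_eq {r y t : ℝ} (h0 : 0 < r) (hy : r < y) (ht : y < t) (h1 : t < 1) :
    HasSum (fun n : ℕ => EE (r ^ (2 * n) * y * t⁻¹) - EE (r ^ (2 * n) * y * t) +
      EE (r ^ (2 * n) * (r ^ 2 / y) * t⁻¹) - EE (r ^ (2 * n) * (r ^ 2 / y) * t))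
      (-((vk r (t / y : ℝ)).re + (vk r (t * y : ℝ)).re) / 2) := by
  have y0 : 0 < y := h0.trans hy
  have t0 : 0 < t := y0.trans ht
  have r1 : r < 1 := hy.trans (ht.trans h1)
  have a1 : y * t⁻¹ < 1 := by rw [← div_eq_mul_inv]; exact (div_lt_one t0).2 ht
  have a2 : y * t < 1 := by nlinarith
  have b0 : r ^ 2 / y < r := by rw [div_lt_iff₀ y0]; nlinarith
  have a3 : r ^ 2 / y * t⁻¹ < 1 := by rw [← div_eq_mul_inv, div_lt_one t0]; linarith
  have a4 : r ^ 2 / y * t < 1 := by nlinarith [div_pos (pow_pos h0 2) y0]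
  have k := (((sumE h0 r1 (by positivity) a1).hasSum.sub (sumE h0 r1 (by positivity) a2).hasSum).add
    (sumE h0 r1 (by positivity) a3).hasSum).sub (sumE h0 r1 (by positivity) a4).hasSum
  simp only [← mul_assoc] at k
  suffices h : -((vk r (t / y : ℝ)).re + (vk r (t * y : ℝ)).re) / 2 = _ from h ▸ k
  have c1 : r ^ 2 * (t / y) = r ^ 2 / y * t := by ring
  have c2 : r ^ 2 / (t / y) = r ^ 2 * (y * t⁻¹) := by field_simp
  have c3 : r ^ 2 / (t * y) = r ^ 2 / y * t⁻¹ := by field_simp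
  rw [vk_re h0 r1 (by rw [lt_div_iff₀ y0]; nlinarith [mul_pos h0 h0]) (c1 ▸ a4),
    vk_re h0 r1 (by nlinarith) (by nlinarith [mul_pos h0 h0, mul_pos y0 t0]), c1, c2, c3,
    mul_comm t y, shift h0 r1 (by positivity) a1, shift h0 r1 (by positivity) a2]
  simp only [← mul_assoc, EE]
  have d1 : y - t ≠ 0 := sub_ne_zero.2 ht.ne
  have d2 : t - y ≠ 0 := sub_ne_zero.2 ht.ne'
  have d3 : 1 - y * t ≠ 0 := (sub_pos.2 a2).ne'
  have e1 : (1 + t / y) / (1 - t / y) = -1 - 2 * (y * t⁻¹ / (1 - y * t⁻¹)) := by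
    field_simp
    ring
  have e2 : (1 + y * t) / (1 - y * t) = 1 + 2 * (y * t / (1 - y * t)) := by
    field_simp
    ring
  rw [e1, e2]
  ring

/-- The even combination is strictly decreasing in the pole. -/
theorem even_lt {r y x t : ℝ} (h0 : 0 < r) (hy : r < y) (hx : y < x) (ht : x < t) (h1 : t < 1) :
    (vk r (t / x : ℝ)).re + (vk r (t * x : ℝ)).re <
      (vk r (t / y : ℝ)).re + (vk r (t * y : ℝ)).re := by
  have y0 : 0 < y := h0.trans hy
  have x0 : 0 < x := y0.trans hx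
  have t0 : 0 < t := x0.trans ht
  have r1 : r < 1 := by linarith
  have key : ∀ n : ℕ, EE (r ^ (2 * n) * y * t⁻¹) - EE (r ^ (2 * n) * y * t) +
      EE (r ^ (2 * n) * (r ^ 2 / y) * t⁻¹) - EE (r ^ (2 * n) * (r ^ 2 / y) * t) <
      EE (r ^ (2 * n) * x * t⁻¹) - EE (r ^ (2 * n) * x * t) +
      EE (r ^ (2 * n) * (r ^ 2 / x) * t⁻¹) - EE (r ^ (2 * n) * (r ^ 2 / x) * t) := fun n => by
    have s0 : 0 < r ^ (2 * n) := by positivity
    have s1 : r ^ (2 * n) ≤ 1 := pow_le_one₀ h0.le r1.le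
    have g : ∀ X : ℝ, 0 < X → X < t → r ^ (2 * n) * X * t⁻¹ < 1 := fun X a b => by
      rw [← div_eq_mul_inv, div_lt_one t0]
      nlinarith
    have b : ∀ w : ℝ, r < w → r ^ 2 / w < t := fun w hw => by
      rw [div_lt_iff₀ (h0.trans hw)]
      nlinarith
    refine term (by field_simp) ?_ (by positivity) (by positivity) (by positivity) (by positivity)
      t0 (h1.trans ((one_lt_inv₀ t0).2 h1)) (g _ x0 ht) (g _ (by positivity) (b _ (hy.trans hx)))
      (g _ y0 (hx.trans ht)) (g _ (by positivity) (b _ hy))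
    rw [← mul_add, ← mul_add]
    refine mul_lt_mul_of_pos_left ?_ s0
    have : r ^ 2 / y - r ^ 2 / x = r ^ 2 / (x * y) * (x - y) := by field_simp
    have h2 : r ^ 2 / (x * y) < 1 := by rw [div_lt_one (by positivity)]; nlinarith
    nlinarith
  have := hasSum_lt (fun n => (key n).le) (key 0) (even_eq h0 hy (hx.trans ht) h1)
    (even_eq h0 (hy.trans hx) ht h1)
  linarith

end BhP

end Pool.Agent.P.MP_3bd355_an
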