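import Pool.Agent.P.MP_3bd355_an.Bh.Mir
import Pool.Agent.P.MP_3bd355_an.AllX
import Pool.Agent.P.MP_3bd355_an.AllNa
import Pool.Agent.P.MP_3bd355_an.Z.All

/-! The radial slit is the unique extremal for every real point `z₀` behind `z₁`. -/

open Set Filter Metric Complex InnerProductSpace
open scoped Topology ComplexConjugate Real

namespace Pool.Agent.P.MP_3bd355_an

namespace BhP

theorem real_mem {r y : ℝ} (h0 : 0 < r) (hy : r < y) (h1 : y < 1) : (y : ℂ) ∈ ann r := by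
  constructor <;> rwa [norm_real, Real.norm_of_nonneg (h0.trans hy).le]

theorem neg_mem {r y : ℝ} (h0 : 0 < r) (hy : r < y) (h1 : y < 1) : -(y : ℂ) ∈ ann r := by
  constructor <;> rwa [norm_neg, norm_real, Real.norm_of_nonneg (h0.trans hy).le]

/-- Comparison with a function that is harmonic off a radial slit. -/
theorem slit_cmp {r A A' B x R : ℝ} {v w : ℂ → ℝ} (h0 : 0 < r) (hx : r < x) (hx1 : x < 1)
    (hh : HarmonicOnNhd v (ann r \ seg x R)) (hc : ContinuousOn v (ann r))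
    (hz : ∀ z ∈ ann r, z ∈ seg x R → v z = 0)
    (ho : ∀ p : ℂ, ‖p‖ = 1 → Tendsto v (𝓝[ann r] p) (𝓝 A))
    (hi : ∀ p : ℂ, ‖p‖ = r → Tendsto v (𝓝[ann r] p) (𝓝 B))
    (hw : Sub w (ann r)) (wz : ∀ z ∈ ann r, z ∈ seg x R → w z ≤ 0)
    (hA : A' ≤ A) (wo : ∀ p : ℂ, ‖p‖ = 1 → Tendsto w (𝓝[ann r] p) (𝓝 A'))
    (wi : ∀ p : ℂ, ‖p‖ = r → Tendsto w (𝓝[ann r] p) (𝓝 B)) :
    (∀ z ∈ ann r, w z ≤ v z) ∧
      ∀ z₀ ∈ ann r \ seg x R, v z₀ ≤ w z₀ → ∀ z ∈ ann r \ seg x R, w z = v z := by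
  have h1 := hx.trans hx1
  have hO : IsOpen (ann r \ seg x R) := (isOpen_ann r).sdiff (X0P.isClosed_seg x R)
  have hS : Sub (fun z => w z - v z) (ann r \ seg x R) := (hw.mono sdiff_subset).sub_harm hh
  have hle := hS.mp0 hO ((bdd_ann r).subset sdiff_subset) (c := 0) fun p hp => by
    refine LS.mono (U := ann r) ?_ sdiff_subset
    rw [hO.frontier_eq] at hp
    have hpc : p ∈ cann r := by
      rw [← closure_ann h0 h1]
      exact closure_mono sdiff_subset hp.1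
    by_cases ha : p ∈ ann r
    · have hpK : p ∈ seg x R := by
        by_contra hn
        exact hp.2 ⟨ha, hn⟩
      exact ((LS.of_usc hw.1 ha subset_rfl).sub_tendsto (hc p ha).tendsto).le
        (by linarith [hz p ha hpK, wz p ha hpK])
    · rcases hpc.1.eq_or_lt with e | e
      · exact LS.of_tendsto ((wi p e.symm).sub (hi p e.symm)) (sub_self _).le
      · have e1 : ‖p‖ = 1 := le_antisymm hpc.2 (not_lt.1 fun h => ha ⟨e, h⟩)
        exact LS.of_tendsto ((wo p e1).sub (ho p e1)) (sub_nonpos.2 hA)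
  refine ⟨fun z hz' => ?_, fun z₀ hz₀ e z hz' => ?_⟩
  · by_cases hs : z ∈ seg x R
    · exact (wz z hz' hs).trans (hz z hz' hs).ge
    · exact sub_nonpos.1 (hle z ⟨hz', hs⟩)
  · have := hS.strong hO (X0P.slit_eq (h0.trans hx) R ▸ ConfP.preconn_slit h0 (real_mem h0 hx hx1) R)
      hz₀ (fun y hy => by linarith [hle y hy]) z hz'
    linarith [hle z₀ hz₀]

theorem sub_of_adm {r A B : ℝ} {z₁ : ℂ} {v : ℂ → ℝ} (hc : ContinuousOn v (ann r))
    (h : Adm r A B z₁ fun z => (v z : EReal)) : Sub v (ann r) :=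
  ⟨hc.upperSemicontinuousOn, fun c ρ hρ hb g hg hs z hz => EReal.coe_le_coe_iff.1
    (h.sub.2.2 c ρ hρ hb g hg (fun y hy => EReal.coe_le_coe_iff.2 (hs y hy)) z hz)⟩

theorem le_Msup {r A B : ℝ} {z₀ z₁ : ℂ} {u : ℂ → EReal} (h : Adm r A B z₁ u) :
    u z₀ ≤ Msup r A B z₀ z₁ := le_iSup₂_of_le (f := fun (u : ℂ → EReal) (_ : Adm r A B z₁ u) => u z₀)
  u h le_rfl

theorem seg_mono {x R R' : ℝ} (h : R ≤ R') : seg x R ⊆ seg x R' :=
  fun _ hz => ⟨hz.1, hz.2.1, hz.2.2.trans h⟩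

/-- The radial solution together with its extremal property at one point of the negative axis. -/
structure RX (r A B x R : ℝ) (v : ℂ → ℝ) : Prop where
  rs : RS r A B x R v
  x1 : x < 1
  adm : Adm r A B x fun z => (v z : EReal)
  ext : ∃ y : ℝ, r < y ∧ y < 1 ∧ (v (-y) : EReal) = Msup r A B (-y) x ∧
    ∀ u, Adm r A B x u → u (-y) = Msup r A B (-y) x → ∀ z ∈ ann r, u z = (v z : EReal)

theorem exists_RX {r A B x y : ℝ} (h0 : 0 < r) (hx : r < x) (hx1 : x < 1) (hy : r < y) (hy1 : y < 1)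
    (hA : A ≤ 0) (hh : 0 < hf r A B x) : ∃ R v, RX r A B x R v ∧
      (v (-y) : EReal) = Msup r A B (-y) x ∧
      ∀ u, Adm r A B x u → u (-y) = Msup r A B (-y) x → ∀ z ∈ ann r, u z = (v z : EReal) := by
  obtain ⟨R, v, a, a1, a2, a3⟩ := x0 all_MAIN all_RAD all_CRIT1 r A B x y h0 hx hx1 hy hy1 hA hh
  exact ⟨R, v, ⟨a, hx1, a1, y, hy, hy1, a2, a3⟩, a2, a3⟩

/-- A radial admissible function that is maximal at some point is the radial solution. -/
theorem RX.eq {r A B x R R' : ℝ} {v w : ℂ → ℝ} (h : RX r A B x R v)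
    (hh : HarmonicOnNhd w (ann r \ seg x R')) (hc : ContinuousOn w (ann r))
    (hz : ∀ z ∈ ann r, z ∈ seg x R' → w z = 0) (ha : Adm r A B x fun z => (w z : EReal))
    {z₀ : ℂ} (m0 : z₀ ∈ ann r \ seg x 1) (hm : Msup r A B z₀ x ≤ w z₀) :
    ∀ z ∈ ann r, w z = v z := by
  have a := h.rs
  have ho := fun p hp => X0P.tend_real (ha.outer p hp)
  have hi := fun p hp => X0P.tend_real (ha.inner p hp)
  obtain ⟨y, y0, y1, e1, e2⟩ := h.ext
  have fin : v (-y) ≤ w (-y) → ∀ z ∈ ann r, w z = v z := fun e z hz' =>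
    EReal.coe_eq_coe_iff.1 (e2 _ ha (le_antisymm (le_Msup ha)
      (e1 ▸ EReal.coe_le_coe_iff.2 e)) z hz')
  have my := neg_mem a.r0 y0 y1
  rcases le_total R' R with l | l
  · exact fin ((slit_cmp a.r0 a.rx h.x1 hh hc hz ho hi (sub_of_adm a.cont h.adm)
      (fun z h1 h2 => (a.zero z h1 (seg_mono l h2)).le) le_rfl a.outer a.inner).1 _ my)
  · refine fin ((slit_cmp a.r0 a.rx h.x1 a.harm a.cont a.zero a.outer a.inner (sub_of_adm hc ha)
      (fun z h1 h2 => (hz z h1 (seg_mono l h2)).le) le_rfl ho hi).2 z₀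
      ⟨m0.1, fun e => m0.2 (seg_mono a.R1 e)⟩
      (EReal.coe_le_coe_iff.1 ((le_Msup h.adm).trans hm)) _ ⟨my, fun e => ?_⟩).ge
    have := e.2.1
    simp only [neg_re, ofReal_re] at this
    linarith [a.r0, a.rx]

theorem J_nonneg {r x κ a b : ℝ} (h0 : 0 < a) (h : a ≤ b) : 0 ≤ Jint r x κ 1 a b :=
  intervalIntegral.integral_nonneg h fun _ hs =>
    div_nonneg (Real.sqrt_nonneg _) (h0.trans_le hs.1).le

/-- Values of the radial solution on the positive axis. -/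
theorem values {r A B x R : ℝ} {v : ℂ → ℝ} (a : RS r A B x R v) :
    (∀ y : ℝ, r < y → y < x → 0 < v y ∧
      v y = B * Jint r x (Kc r x R).re 1 y x / Jint r x (Kc r x R).re 1 r x) ∧
    ∀ z ∈ ann r, z ∈ seg x 1 → v z ≤ 0 := by
  obtain ⟨b, b0, e1, e2⟩ := x5 x1 x2 x3 x4 r A B x R v a
  obtain ⟨-, -, f1, -⟩ := x6 r A B x R b v a b0 e1 e2
  have x1 : x < 1 := a.xR.trans_le a.R1
  have sb : 0 < √b := Real.sqrt_pos.2 b0
  have jp : 0 < Jint r x (Kc r x R).re 1 r x := (mul_pos_iff_of_pos_left sb).1 (f1 ▸ a.B0)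
  refine ⟨fun y h1 h2 => ?_, fun z hz hs => ?_⟩
  · have val : ∀ s : ℝ, r < s → s < x → v s = √b * Jint r x (Kc r x R).re 1 s x := fun s s1 s2 => by
      simpa using (X6P.piece a b0 e1 abs_one s1.le s2 x1.le
        (fun t ht => Or.inl (by simpa using ht.2)) (X6P.at_pt a abs_one ⟨s1, s2.trans x1⟩)
        (X6P.at_seg a le_rfl a.xR.le x1)).2
    refine ⟨?_, by rw [val y h1 h2, mul_div_right_comm, (div_eq_iff jp.ne').2 f1]⟩
    have hz : ((1 * y : ℝ) : ℂ) ∈ ann r \ seg x R :=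
      ⟨X6P.mem_ann abs_one a.r0 ⟨h1, h2.trans x1⟩, fun e => by
        have : x ≤ 1 * y := e.2.1
        linarith⟩
    have d := X6P.der a (a.r0.trans h1).ne' hz
    have d0 := div_neg_of_neg_of_pos (e1 _ hz).2 (a.r0.trans h1)
    obtain ⟨s, k1, k2⟩ := ((((hasDerivAt_iff_tendsto_slope_left_right.1 d).2.eventually
      (gt_mem_nhds d0))).and (Ioo_mem_nhdsGT h2)).exists
    rw [slope_def_field, div_lt_iff₀ (sub_pos.2 k2.1), zero_mul, one_mul, one_mul,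
      val s (h1.trans k2.1) k2.2] at k1
    linarith [mul_nonneg sb.le (J_nonneg (r := r) (x := x) (κ := (Kc r x R).re)
      (a.r0.trans (h1.trans k2.1)) k2.2.le)]
  · have ez : z = (z.re : ℂ) := Complex.ext rfl (by simpa using hs.1)
    rcases le_or_gt z.re R with l | l
    · exact (a.zero z hz ⟨hs.1, hs.2.1, l⟩).le
    · have z1 : z.re < 1 := (re_le_norm z).trans_lt hz.2
      have rR := a.rx.trans a.xR
      have := (X6P.piece a b0 e1 abs_one rR.le l z1.le (fun t ht => Or.inr (by simpa using ht.1))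
        (X6P.at_seg a a.xR.le le_rfl (l.trans z1)) (X6P.at_pt a abs_one ⟨rR.trans l, z1⟩)).2
      rw [one_mul, ← ez] at this
      linarith [mul_nonneg sb.le (J_nonneg (r := r) (x := x) (κ := (Kc r x R).re)
        (a.r0.trans rR) l.le)]

open MainP in
theorem behind_neg {r A B x y R : ℝ} {v₀ : ℂ → ℝ} (h : RX r A B x R v₀) (hA : A < 0)
    (hh : 0 < hf r A B x) (hy0 : r < y) (hx : y < x) : Msup r A B y x = v₀ y ∧
      ∀ u, Adm r A B x u → u y = Msup r A B y x → ∀ z ∈ ann r, u z = (v₀ z : EReal) := by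
  have h0 := h.rs.r0
  have hr1 := h.rs.rx.trans h.x1
  have hB0 := h.rs.B0
  have x0 := h0.trans h.rs.rx
  have m0 := real_mem h0 hy0 (hx.trans h.x1)
  have hy : Hyp r A B y x := ⟨h0, hr1, m0, real_mem h0 h.rs.rx h.x1, hA.le, hh, by simp, by simp⟩
  have hch := hy.ch
  obtain ⟨m, hm, hAm, hb, happ⟩ := all_MREAL r A B _ _ hch
  have up : ∀ L v, Cfg r A B x L v → v y ≤ m := fun L v hc => by
    obtain ⟨K, hK⟩ := all_SC r A B _ L v hc
    exact hb K v (SC.gc hc hK)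
  have mp : 0 < m := ((values h.rs).1 y hy0 hx).1.trans_le
    (EReal.coe_le_coe_iff.1 (hm ▸ le_Msup h.adm))
  have key : ∀ L v, Cfg r A B x L v → m ≤ v y → (y : ℂ) ∈ main r L ∧
      ann r ⊆ closure (main r L) ∧ ∀ z ∈ ann r, v z = v₀ z := by
    intro L v hc hv
    have mem := hc.sol.mem_main (mp.trans_le hv).ne'
    obtain ⟨a, b, c, κ, g, hC, hcl, -⟩ := all_CORE r A B _ _ m L v ⟨hy, hc, hb, hv, mem⟩
    obtain ⟨-, -, -, ⟨S, hSf, hS0⟩, -, adm⟩ := all_CRIT1 r A B _ _ a b c κ v g hch hC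
    have low : ∀ t ∈ Icc (0 : ℝ) 1, (κ t).im ≤ 0 := by
      refine ConfP.im_le hC.cont hC.inj hSf fun t ht htS => ?_
      by_contra hpos
      rw [not_le] at hpos
      have hm' := hC.mem t ⟨ht.1.le, ht.2⟩
      rcases hm'.1.eq_or_lt with hr | hr
      · have hne : (𝓝[ann r] (κ t)).NeBot := mem_closure_iff_nhdsWithin_neBot.1 (by
          rw [closure_ann h0 hr1]
          exact ⟨hm'.1, hm'.2.le⟩)
        exact hB0.ne' (tendsto_nhds_unique (Sol.inner hc.cont hc.sol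
          (hc.cont.upper_Ex hr.symm hpos)) (hS0 t (Ioo_subset_Icc_self ht) hr.symm htS))
      · exact (all_CRIT2 r A B _ _ a b c κ v g hch hC).1 t ht hr
          (hc.sol.harm _ (hc.cont.upper_sub ⟨⟨hr, hm'.2⟩, hpos⟩))
    obtain ⟨k1, -, k3, -⟩ := all_RAD1 r A B _ _ a b c κ v g hch hC
      (mirror all_CRIT1 all_CRIT2 all_NA1 hch hA hy0 hx hC low)
    rw [X0P.slit_eq x0] at k3
    refine ⟨mem, hcl, h.eq (k3 ▸ hC.v_harm) hC.v_cont (k3 ▸ hC.v_zero) (adm k1)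
      ⟨m0, fun e => ?_⟩ (hm ▸ EReal.coe_le_coe_iff.2 hv)⟩
    exact absurd e.2.1 (not_le.2 hx)
  obtain ⟨L, v, hc, hv⟩ := all_E2 r A B _ _ m hy happ
  refine ⟨by rw [hm, ← (key L v hc hv).2.2 _ m0, le_antisymm (up L v hc) hv], fun u hu hum => ?_⟩
  obtain ⟨w, γ, hg, hγ, hw⟩ := all_BR r A B _ _ h0 hr1 hA.le hB0.le hu
  have hw0 : w y = m := by
    have := hw _ m0
    rw [hum, hm, max_eq_left (EReal.coe_le_coe_iff.2 (by linarith))] at this
    exact_mod_cast this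
  obtain ⟨L', v', hc', hfh, hn⟩ := all_E1 r A B _ _ w γ hy hg
  have hle := (all_FOLD1 r A B L' w v' hc'.cont hc'.ok hB0.le hc'.sol hg.sh hg.outer hg.inner hfh
    _ m0 hy.im0).1
  obtain ⟨hmm, hcl, ev⟩ := key L' v' hc' (hw0 ▸ hle)
  have hq := base_mem h0 hr1
  have wv : ∀ z ∈ ann r, w z = v₀ z := by
    rcases all_FOLD3 r A B L' w v' _ hc'.cont hc'.ok hB0.le hc'.sol hg.sh hg.outer hg.inner hfh
      (hn hγ) m0 (by simp) (main_sub r L' hmm).2 (hw0 ▸ up L' v' hc') with e | e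
    · exact fun z hz => ((all_FOLD2 r A B L' w v' _ hc'.cont hc'.ok hB0.le hc'.sol hg.sh hg.outer
        hg.inner hfh hq.1 hq.2 (e _ hq.1 hq.2).ge).2 (hn hγ) z hz (hcl hz)).trans (ev z hz)
    · intro z hz
      have hz' := conj_mem_ann.2 hz
      have := (all_FOLD2 r A B L' (fun z => w (conj z)) v' _ hc'.cont hc'.ok hB0.le hc'.sol
        (hg.sh.comp_conj fun _ hz => conj_mem_ann.2 hz)
        (fun p hp => ls_conj (hg.outer _ (by rw [norm_conj, hp])))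
        (fun p hp => ls_conj (hg.inner _ (by rw [norm_conj, hp]))) (fh_conj hfh) hq.1 hq.2
        (e _ hq.1 hq.2).ge).2 (hn hγ) _ hz' (hcl hz')
      rwa [conj_conj, ev _ hz', h.rs.symm z hz] at this
  intro z hz
  have e1 := hw _ hz
  rw [wv z hz] at e1
  rcases max_choice (u z) ((A - 1 : ℝ) : EReal) with e3 | e3
  · rw [← e3, ← e1]
  · rw [e3] at e1
    have : v₀ z = A - 1 := by exact_mod_cast e1
    linarith [(h.rs.bnd z hz).1]

theorem hf_bd {r ε : ℝ} (h0 : 0 < r) (hε : 0 < ε) {z : ℂ} (hz : z ∈ ann r) :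
    -ε ≤ hf r (-ε) 0 z ∧ hf r (-ε) 0 z ≤ 0 := by
  have h1 : Real.log r < Real.log ‖z‖ := Real.log_lt_log h0 hz.1
  have h2 : Real.log ‖z‖ < 0 := Real.log_neg (h0.trans hz.1) hz.2
  have h3 : 0 < Real.log ‖z‖ / Real.log r := div_pos_of_neg_of_neg h2 (h1.trans h2)
  have h4 : Real.log ‖z‖ / Real.log r < 1 := (div_lt_one_of_neg (h1.trans h2)).2 h1
  rw [hf, mul_div_assoc]
  constructor <;> nlinarith

theorem shift_adm {r B ε : ℝ} {z₁ : ℂ} {u : ℂ → ℝ} {γ : ℝ → ℂ} (h0 : 0 < r)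
    (hε : 0 < ε) (h : GAdm r 0 B z₁ u γ) :
    GAdm r (-ε) B z₁ (fun z => u z + hf r (-ε) 0 z) γ := by
  have nn : ∀ p : ℂ, LS (hf r (-ε) 0) (ann r) p 0 := fun p =>
    LS.of_eventually (eventually_mem_nhdsWithin.mono fun z hz => (hf_bd h0 hε hz).2)
  obtain ⟨S, hS, hug⟩ := h.hug
  refine ⟨h.sh.add_harm fun z hz => hf_harm r _ _ (norm_pos_iff.1 (h0.trans hz.1)), fun p hp => ?_,
    fun p hp => ((h.inner p hp).add (nn p)).le (add_zero B).le, h.cont, h.start, h.mem, h.lim,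
    fun t ht hr => add_nonpos (h.le t ht hr) (hf_bd h0 hε ⟨hr, (h.mem t ht).2⟩).2,
    S, hS, fun t ht hr hs => ((hug t ht hr hs).add (nn _)).le (add_zero 0).le⟩
  have := (harm_diff (hf_harm r (-ε) 0 (z := p) (norm_pos_iff.1 (hp ▸ one_pos)))).continuousAt.tendsto
  rw [hf_outer r _ _ hp] at this
  exact ((h.outer p hp).add (LS.of_tendsto (this.mono_left nhdsWithin_le_nhds) le_rfl)).le
    (zero_add _).le

theorem behind_zero {r B x y R : ℝ} {v₀ : ℂ → ℝ} (h : RX r 0 B x R v₀)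
    (hh : 0 < hf r 0 B x) (hy0 : r < y) (hx : y < x) : Msup r 0 B y x = v₀ y ∧
      ∀ u, Adm r 0 B x u → u y = Msup r 0 B y x → ∀ z ∈ ann r, u z = (v₀ z : EReal) := by
  have a := h.rs
  have h0 := a.r0
  have hr1 := a.rx.trans h.x1
  have m0 := real_mem h0 hy0 (hx.trans h.x1)
  have m1 := real_mem h0 a.rx h.x1
  obtain rfl : R = 1 := a.RA.2 rfl
  obtain ⟨m, hm, -, -, happ⟩ := all_MREAL r 0 B _ _ ⟨h0, hr1, m0, m1, le_rfl, a.B0⟩
  have hM : Msup r 0 B y x = v₀ y := by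
    refine le_antisymm ?_ (le_Msup h.adm)
    rw [hm, EReal.coe_le_coe_iff]
    refine le_of_forall_pos_le_add fun η hη => ?_
    obtain ⟨u, γ, hu, hl⟩ := happ (η / 2) (half_pos hη)
    set ε := min (η / 2) (hf r 0 B x / 2) with hε
    have ε0 : 0 < ε := lt_min (half_pos hη) (half_pos hh)
    have hh' : 0 < hf r (-ε) B x := by
      have e : hf r (-ε) B x = hf r (-ε) 0 x + hf r 0 B x := by simp only [hf]; ring
      linarith [(hf_bd h0 ε0 m1).1, min_le_right (η / 2) (hf r 0 B x / 2)]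
    obtain ⟨R', v', k, -⟩ := exists_RX h0 a.rx h.x1 a.rx h.x1 (neg_nonpos.2 ε0.le) hh'
    obtain ⟨m', hm', -, hb', -⟩ := all_MREAL r (-ε) B _ _
      ⟨h0, hr1, m0, m1, neg_nonpos.2 ε0.le, a.B0⟩
    have q1 := hb' _ _ ((shift_adm h0 ε0 hu).gc h0 hr1)
    have q2 : m' = v' y := EReal.coe_eq_coe_iff.1
      (hm'.symm.trans (behind_neg k (neg_neg_of_pos ε0) hh' hy0 hx).1)
    have q3 := (slit_cmp h0 a.rx h.x1 a.harm a.cont a.zero a.outer a.inner
      (sub_of_adm k.rs.cont k.adm) (values k.rs).2 (neg_nonpos.2 ε0.le) k.rs.outer k.rs.inner).1 _ m0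
    linarith [(hf_bd h0 ε0 m0).1, min_le_left (η / 2) (hf r 0 B x / 2)]
  refine ⟨hM, fun u hu hum z hz => ?_⟩
  obtain ⟨a', b, c, κ, v, g, -, -, k⟩ := zall_MAIN r B y x h0 hy0 (hx.trans h.x1) m1 a.B0 (by simp)
    fun e => hx.ne' (ofReal_injective e)
  have sv : ∀ w ∈ ann r, v w = v₀ w := fun w hw => by
    rcases ((k _).1 ⟨h.adm, hM.symm⟩).2 with e | ⟨-, e⟩
    · exact (EReal.coe_eq_coe_iff.1 (e w hw)).symm
    · have := EReal.coe_eq_coe_iff.1 (e _ (conj_mem_ann.2 hw))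
      rw [conj_conj, a.symm w hw] at this
      exact this.symm
  rcases ((k u).1 ⟨hu, hum⟩).2 with e | ⟨-, e⟩
  · rw [e z hz, sv z hz]
  · rw [e z hz, sv _ (conj_mem_ann.2 hz), a.symm z hz]

end BhP

open BhP in
theorem collinear (r A B x : ℝ) (hr : 0 < r) (hx : r < x) (hx1 : x < 1) (hA : A ≤ 0)
    (hh : 0 < hf r A B x) : ∃ (κ R : ℝ) (v : ℂ → ℝ),
      (∀ κ' : ℝ, (κ' ≤ (Kc r x 1).re ∧ B * Jint r x κ' 1 x 1 = -A * Jint r x κ' 1 r x) ↔ κ' = κ) ∧
      0 < Jint r x κ 1 r x ∧ x < R ∧ R ≤ 1 ∧ (Kc r x R).re = κ ∧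
      HarmonicOnNhd v (ann r \ seg x R) ∧ (∀ z ∈ ann r, z ∈ seg x R → v z = 0) ∧
      (∀ z ∈ ann r \ seg x R,
        (z * grad v z) ^ 2 = ((B / Jint r x κ 1 r x : ℝ) : ℂ) ^ 2 * (Kc r x z - κ)) ∧
      (∀ y : ℝ, r < y → y < 1 →
        Msup r A B (-y) x = ((A + B * Jint r x κ (-1) y 1 / Jint r x κ 1 r x : ℝ) : EReal) ∧
        (∀ z : ℂ, ‖z‖ = y → Msup r A B z x ≤ Msup r A B (-y) x) ∧
        ∀ u : ℂ → EReal, (Adm r A B x u ∧ u (-y) = Msup r A B (-y) x) ↔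
          ∀ z ∈ ann r, u z = (v z : EReal)) ∧
      ∀ y : ℝ, r < y → y < x →
        Msup r A B y x = ((B * Jint r x κ 1 y x / Jint r x κ 1 r x : ℝ) : EReal) ∧
        (∀ z : ℂ, ‖z‖ = y → Msup r A B y x ≤ Msup r A B z x) ∧
        ∀ u : ℂ → EReal, (Adm r A B x u ∧ u y = Msup r A B y x) ↔
          ∀ z ∈ ann r, u z = (v z : EReal) := by
  obtain ⟨R, v, h, -⟩ := exists_RX hr hx hx1 hx hx1 hA hh
  have a := h.rs
  have xp := hr.trans hx
  obtain ⟨R', v', a', -⟩ := x0 all_MAIN all_RAD all_CRIT1 r 0 1 x x hr hx hx1 hx hx1 le_rfl (by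
    simp only [hf, norm_real, Real.norm_eq_abs, abs_of_pos xp, sub_zero, one_mul, zero_add]
    exact div_pos_of_neg_of_neg (Real.log_neg xp hx1) (Real.log_neg hr (hx.trans hx1)))
  obtain rfl : R' = 1 := a'.RA.2 rfl
  obtain ⟨b', b0', c1, c2⟩ := x5 x1 x2 x3 x4 r 0 1 x 1 v' a'
  obtain ⟨d1, d2, -⟩ := x6 r 0 1 x 1 b' v' a' b0' c1 c2
  rw [ofReal_one] at c2 d1 d2
  obtain ⟨b, b0, e1, e2⟩ := x5 x1 x2 x3 x4 r A B x R v a
  obtain ⟨-, -, f1, f2, f3⟩ := x6 r A B x R b v a b0 e1 e2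
  have sb : 0 < √b := Real.sqrt_pos.2 b0
  have jp : 0 < Jint r x (Kc r x R).re 1 r x := (mul_pos_iff_of_pos_left sb).1 (f1 ▸ a.B0)
  have q : B / Jint r x (Kc r x R).re 1 r x = √b := by rw [div_eq_iff jp.ne']; exact f1
  have k1 : (Kc r x R).re ≤ (Kc r x 1).re := by
    rcases a.R1.eq_or_lt with e | e
    · rw [e, ofReal_one]
    · exact c2 R ⟨a.xR, e⟩
  have k2 : B * Jint r x (Kc r x R).re 1 x 1 = -A * Jint r x (Kc r x R).re 1 r x := by
    rw [f2]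
    linear_combination Jint r x (Kc r x R).re 1 x 1 * f1
  refine ⟨_, R, v, fun κ' => ⟨fun h => x7 r A B x _ _ hr hx hx1 hA a.B0 d1 d2 c2 h.1 k1 h.2 k2,
    fun h => h ▸ ⟨k1, k2⟩⟩, jp, a.xR, a.R1, rfl, a.harm, a.zero, fun z hz => ?_,
    fun y y0 y1 => ?_, fun y y0 y1 => ?_⟩
  · rw [q, ← ofReal_pow, Real.sq_sqrt b0.le]
    exact (e1 z hz).1
  · obtain ⟨R', w, k, g1, g2⟩ := exists_RX hr hx hx1 y0 y1 hA hh
    have m0 := neg_mem hr y0 y1
    have e := h.eq k.rs.harm k.rs.cont k.rs.zero k.adm ⟨m0, fun e => by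
      have := e.2.1
      simp only [neg_re, ofReal_re] at this
      linarith⟩ g1.ge
    rw [e _ m0] at g1
    refine ⟨?_, bound_opp hr hx hx1 y0 y1 hA hh, fun u => ⟨fun hu z hz => ?_,
      fun hu => ⟨h.adm.congr hu, (hu _ m0).trans g1⟩⟩⟩
    · rw [← g1, f3 y ⟨y0, y1⟩, mul_div_right_comm, q]
    · rw [g2 u hu.1 hu.2 z hz, e z hz]
  · have m0 := real_mem hr y0 (y1.trans hx1)
    obtain ⟨g1, g2⟩ : Msup r A B y x = v y ∧
        ∀ u, Adm r A B x u → u y = Msup r A B y x → ∀ z ∈ ann r, u z = (v z : EReal) := by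
      rcases hA.eq_or_lt with rfl | hA'
      · exact behind_zero h hh y0 y1
      · exact behind_neg h hA' hh y0 y1
    refine ⟨by rw [g1, ((values a).1 y y0 y1).2], fun z hz => ?_, fun u => ⟨fun hu => g2 u hu.1 hu.2,
      fun hu => ⟨h.adm.congr hu, (hu _ m0).trans g1.symm⟩⟩⟩
    refine all_X8 r A B z y x hr ⟨hz ▸ y0, hz ▸ y1.trans hx1⟩ (real_mem hr hx hx1) hA hh
      (by rw [hz, norm_real, Real.norm_of_nonneg (hr.trans y0).le]) ?_
    have := norm_sub_norm_le (x : ℂ) z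
    rw [norm_real, Real.norm_of_nonneg xp.le, hz, norm_sub_rev] at this
    rwa [← ofReal_sub, norm_real, Real.norm_eq_abs, abs_of_neg (sub_neg.2 y1), neg_sub]

end Pool.Agent.P.MP_3bd355_an
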