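import Pool.Agent.P.MP_3bd355_an.Bh.Ker
import Pool.Agent.P.MP_3bd355_an.Pk.Conf
import Pool.Agent.P.MP_3bd355_an.Pk.Rad1
import Pool.Agent.P.MP_3bd355_an.Pk.Na2

/-! A critical arc in the lower half plane is radial when `z₀` is behind `z₁` on the same ray. -/

open Set Filter Metric Complex InnerProductSpace
open scoped Topology ComplexConjugate Real

namespace Pool.Agent.P.MP_3bd355_an

namespace BhP

open Na2P Rad1P

theorem im_nonneg {S : Set ℂ} (h : S ⊆ upH) {p : ℂ} (hp : p ∈ closure S) : 0 ≤ p.im :=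
  closure_minimal (t := {z : ℂ | 0 ≤ z.im}) (fun _ hz => (show (0 : ℝ) < _ from h hz).le)
    (isClosed_le continuous_const continuous_im) hp

theorem tend_conj {S T : Set ℂ} (h : ∀ z ∈ S, conj z ∈ T) (p : ℂ) :
    Tendsto (fun z => conj z) (𝓝[S] p) (𝓝[T] (conj p)) :=
  continuous_conj.continuousWithinAt.tendsto_nhdsWithin h

/-- The odd part of `v`. -/
theorem odd_v {r A B : ℝ} (h0 : 0 < r) (h1 : r < 1) {v : ℂ → ℝ} (hs : Sub v (ann r))
    (hh : HarmonicOnNhd v (ann r ∩ upH)) (hc : ContinuousOn v (ann r))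
    (hb : ∀ z ∈ ann r, A ≤ v z ∧ v z ≤ B)
    (hA : ∀ p : ℂ, ‖p‖ = 1 → Tendsto v (𝓝[ann r] p) (𝓝 A))
    (hB : ∀ p : ℂ, ‖p‖ = r → 0 < p.im → Tendsto v (𝓝[ann r] p) (𝓝 B)) :
    Sub (fun z => -(v z - v (conj z))) (ann r ∩ upH) ∧
      ∀ z ∈ ann r ∩ upH, 0 ≤ v z - v (conj z) := by
  have cm : ∀ z ∈ ann r ∩ upH, conj z ∈ ann r := fun z hz => conj_mem_ann.2 hz.1
  have hsub : Sub (fun z => -(v z - v (conj z))) (ann r ∩ upH) :=
    ((hs.comp_conj cm).sub_harm hh).congr (fun z _ => by simp)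
  refine ⟨hsub, fun z hz => ?_⟩
  have key := hsub.mpx (isOpen_U r) ((bdd_ann r).subset inter_subset_left)
    ⟨B - A, fun y hy => by linarith [(hb y hy.1).1, (hb _ (cm y hy)).2]⟩
    (S := {(r : ℂ), -(r : ℂ)}) (toFinite _) (c := 0) ?_ z hz
  · linarith
  intro p hp hpS
  have same : ∀ l : ℝ, Tendsto v (𝓝[ann r] p) (𝓝 l) → Tendsto v (𝓝[ann r] (conj p)) (𝓝 l) →
      LS (fun z => -(v z - v (conj z))) (ann r ∩ upH) p 0 := fun l h2 h3 =>
    LS.of_tendsto ((h2.mono_left (nhdsWithin_mono _ inter_subset_left)).sub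
      (h3.comp (tend_conj cm p))).neg (by simp)
  rcases frontier_U h0 h1 hp with h | h | h
  · have i0 := im_nonneg inter_subset_right (frontier_subset_closure hp)
    have i1 : p.im ≠ 0 := fun e => hpS (by
      have e1 : p = (p.re : ℂ) := Complex.ext rfl (by simpa using e)
      rw [e1, norm_real, Real.norm_eq_abs] at h
      rcases (abs_eq h0.le).1 h with e2 | e2 <;> rw [e1, e2] <;> simp)
    have h2 := ((hB p h (lt_of_le_of_ne i0 i1.symm)).mono_left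
      (nhdsWithin_mono _ (inter_subset_left (t := upH)))).const_sub B
    refine (LS.of_tendsto h2 (sub_self B).le).of_le (eventually_mem_nhdsWithin.mono fun y hy => ?_)
    linarith [(hb _ (cm y hy)).2]
  · exact same A (hA p h) (hA _ (by rw [norm_conj, h]))
  · refine same (v p) (hc p h.1) ?_
    rw [conj_eq_iff_im.2 h.2]
    exact hc p h.1

/-- The odd part of the Green function. -/
theorem odd_g {r y : ℝ} {K : Set ℂ} (hK : IsClosed K) (low : ∀ z ∈ K, z.im ≤ 0) {g : ℂ → ℝ}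
    (hh : HarmonicOnNhd g ((ann r \ K) \ {(y : ℂ)}))
    (hp : ∃ H : ℂ → ℝ, HarmonicAt H y ∧ ∀ᶠ z in 𝓝[≠] (y : ℂ), g z = H z - Real.log ‖z - y‖)
    (hb : ∀ p ∈ frontier (ann r \ K), Tendsto g (𝓝[ann r \ K] p) (𝓝 0))
    (h0 : ∀ z ∈ ann r \ K, z ≠ y → 0 ≤ g z) :
    ∀ z ∈ ann r ∩ upH, conj z ∉ K → g (conj z) - g z ≤ 0 := by
  set U : Set ℂ := (ann r ∩ upH) \ (fun z => conj z) ⁻¹' K with hU
  have hO : IsOpen U := (isOpen_U r).sdiff (hK.preimage continuous_conj)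
  have hW : IsOpen (ann r \ K) := (isOpen_ann r).sdiff hK
  have m1 : ∀ z ∈ U, z ∈ (ann r \ K) \ {(y : ℂ)} := fun z hz =>
    ⟨⟨hz.1.1, fun e => not_le.2 hz.1.2 (low z e)⟩, fun e => by
      have : 0 < z.im := hz.1.2
      rw [show z = y from e] at this
      simp at this⟩
  have m2 : ∀ z ∈ U, conj z ∈ (ann r \ K) \ {(y : ℂ)} := fun z hz =>
    ⟨⟨conj_mem_ann.2 hz.1.1, hz.2⟩, fun e => by
      have : 0 < z.im := hz.1.2
      have e2 := congrArg im (show conj z = y from e)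
      rw [conj_im, ofReal_im] at e2
      linarith⟩
  have hS : Sub (fun z => g (conj z) - g z) U :=
    Sub.of_harm fun z hz => (harm_conj (hh _ (m2 z hz))).sub (hh _ (m1 z hz))
  refine fun z hz hz' => hS.mp0 hO ((bdd_ann r).subset fun w hw => hw.1.1) (fun p hp' => ?_) z
    ⟨hz, hz'⟩
  rw [hO.frontier_eq] at hp'
  by_cases hc : conj p ∈ ann r \ K
  · have i0 : p.im = 0 := by
      refine le_antisymm (not_lt.1 fun i => hp'.2 ⟨⟨conj_mem_ann.1 hc.1, i⟩, hc.2⟩)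
        (im_nonneg (fun w hw => hw.1.2) hp'.1)
    have e := conj_eq_iff_im.2 i0
    have tc : Tendsto (fun z : ℂ => conj z) (𝓝[U] p) (𝓝 p) := by
      simpa only [e] using (continuous_conj.tendsto p).mono_left (nhdsWithin_le_nhds (s := U))
    by_cases hy : p = y
    · obtain ⟨H, hH, he⟩ := hp
      subst hy
      have t1 : Tendsto (fun z : ℂ => z) (𝓝[U] (y : ℂ)) (𝓝[≠] (y : ℂ)) :=
        tendsto_nhdsWithin_iff.2 ⟨nhdsWithin_le_nhds,
          eventually_mem_nhdsWithin.mono fun w hw => (m1 w hw).2⟩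
      have t2 : Tendsto (fun z : ℂ => conj z) (𝓝[U] (y : ℂ)) (𝓝[≠] (y : ℂ)) :=
        tendsto_nhdsWithin_iff.2 ⟨tc, eventually_mem_nhdsWithin.mono fun w hw => (m2 w hw).2⟩
      have hHc := (harm_diff hH).continuousAt.tendsto
      refine (LS.of_tendsto ((hHc.comp tc).sub (hHc.mono_left nhdsWithin_le_nhds))
        (sub_self _).le).of_le ?_
      filter_upwards [t1.eventually he, t2.eventually he] with w h1 h2
      rw [h1, h2, ← conj_ofReal y, ← map_sub, norm_conj, conj_ofReal]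
      simp
    · have hgc := (harm_diff (hh p ⟨e ▸ hc, hy⟩)).continuousAt.tendsto
      exact LS.of_tendsto ((hgc.comp tc).sub (hgc.mono_left nhdsWithin_le_nhds)) (sub_self _).le
  · have hf : conj p ∈ frontier (ann r \ K) := by
      rw [hW.frontier_eq]
      exact ⟨map_mem_closure continuous_conj hp'.1 fun w hw => (m2 w hw).1, hc⟩
    refine (LS.of_tendsto ((hb _ hf).comp (tend_conj (fun w hw => (m2 w hw).1) p)) le_rfl).of_le
      (eventually_mem_nhdsWithin.mono fun w hw => ?_)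
    have := h0 w (m1 w hw).1 (m1 w hw).2
    simp only [Function.comp]
    linarith

/-- The moving circle. -/
theorem radial {ρ m : ℝ} (h0 : 0 < ρ) (h1 : ρ < 1) {u : ℂ → ℝ} (hh : HarmonicOnNhd u (ann (ρ ^ 2)))
    (hm : ∀ z ∈ ann (ρ ^ 2), m ≤ u z)
    (ho : ∀ p : ℂ, ‖p‖ = 1 → Tendsto u (𝓝[ann (ρ ^ 2)] p) (𝓝 m)) : (grad u ρ).re ≤ 0 := by
  have q0 : 0 < ρ ^ 2 := by positivity
  have q1 : ρ ^ 2 < ρ := by nlinarith
  have sb : ann ρ ⊆ ann (ρ ^ 2) := fun z hz => ⟨q1.trans hz.1, hz.2⟩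
  have jm : ∀ z : ℂ, ρ ≤ ‖z‖ → ‖z‖ < 1 → jj (ρ ^ 2) z ∈ ann (ρ ^ 2) := fun z a b => by
    have n0 : 0 < ‖z‖ := h0.trans_le a
    refine ⟨?_, ?_⟩
    · rw [norm_jj q0, lt_div_iff₀ n0]; nlinarith
    · rw [norm_jj q0, div_lt_one n0]; linarith
  have hS : Sub (fun z => u z - u (jj (ρ ^ 2) z)) (ann ρ) := Sub.of_harm fun z hz =>
    (hh z (sb hz)).sub (harm_jj (norm_pos_iff.1 (h0.trans hz.1)) (hh _ (jm z hz.1.le hz.2)))
  have key := hS.mp0 (isOpen_ann ρ) (bdd_ann ρ) (c := 0) fun p hp => by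
    rw [(isOpen_ann ρ).frontier_eq, closure_ann h0 h1] at hp
    rcases hp.1.2.eq_or_lt with e | e
    · refine (LS.of_tendsto (((ho p e).mono_left (nhdsWithin_mono _ sb)).sub_const m)
        (sub_self m).le).of_le (eventually_mem_nhdsWithin.mono fun z hz => ?_)
      linarith [hm _ (jm z hz.1.le hz.2)]
    · have e1 : ‖p‖ = ρ := le_antisymm (not_lt.1 fun h => hp.2 ⟨h, e⟩) hp.1.1
      have p0 : p ≠ 0 := norm_pos_iff.1 (e1 ▸ h0)
      have hc := (harm_diff (hh p ⟨e1 ▸ q1, e⟩)).continuousAt.tendsto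
      have tj := (jj_cont (ρ ^ 2) p0).tendsto
      rw [jj_fix p0 (by rw [e1])] at tj
      exact LS.of_tendsto ((hc.sub (hc.comp tj)).mono_left nhdsWithin_le_nhds) (sub_self _).le
  have nρ : ‖(ρ : ℂ)‖ = ρ := by rw [norm_real, Real.norm_of_nonneg h0.le]
  have hd := (harm_diff (hh ρ ⟨by rwa [nρ], by rwa [nρ]⟩)).hasFDerivAt
  have d1 : HasDerivAt (fun s : ℝ => u s) (fderiv ℝ u ρ 1) ρ :=
    hd.comp_hasDerivAt ρ (by simpa using (hasDerivAt_id ρ).ofReal_comp)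
  have d2 : HasDerivAt (fun s : ℝ => ρ ^ 2 / s) (-1) ρ := by
    refine ((hasDerivAt_inv h0.ne').const_mul (ρ ^ 2)).congr_deriv ?_
    field_simp
  have e0 : ρ ^ 2 / ρ = ρ := by field_simp
  have d3 := (show HasDerivAt (fun s : ℝ => u s) (fderiv ℝ u ρ 1) (ρ ^ 2 / ρ) by
    rwa [e0]).comp ρ d2
  have d4 := (hasDerivAt_iff_tendsto_slope_left_right.1 (d1.sub d3)).2
  have : fderiv ℝ u ρ 1 - fderiv ℝ u ρ 1 * -1 ≤ 0 := by
    refine le_of_tendsto d4 ?_
    filter_upwards [Ioo_mem_nhdsGT h1] with s hs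
    have ns : ‖(s : ℂ)‖ = s := by rw [norm_real, Real.norm_of_nonneg (h0.trans hs.1).le]
    have := key s ⟨ns.symm ▸ hs.1, ns.symm ▸ hs.2⟩
    rw [jj, conj_ofReal, ← ofReal_div] at this
    rw [slope_def_field]
    refine div_nonpos_of_nonpos_of_nonneg ?_ (sub_pos.2 hs.1).le
    simp only [Pi.sub_apply, Function.comp, e0, sub_self, sub_zero]
    exact this
  have e : (grad u ρ).re = fderiv ℝ u ρ 1 := by simp [grad]
  linarith

theorem up_mem {O : Set ℂ} (hO : IsOpen O) {t : ℝ} (ht : (t : ℂ) ∈ O) :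
    ∀ᶠ τ : ℝ in 𝓝[>] 0, (t : ℂ) + τ * I ∈ O ∧ conj ((t : ℂ) + τ * I) ∈ O ∧
      (t : ℂ) + τ * I ∈ upH := by
  have c1 : Continuous fun τ : ℝ => (t : ℂ) + τ * I := by fun_prop
  have a := (c1.tendsto' 0 t (by simp)).eventually (hO.mem_nhds ht)
  have b := ((continuous_conj.comp c1).tendsto' 0 t (by simp)).eventually (hO.mem_nhds ht)
  filter_upwards [nhdsWithin_le_nhds a, nhdsWithin_le_nhds b, self_mem_nhdsWithin] with τ x y z
  exact ⟨x, y, by simpa [upH] using z⟩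

theorem QD_im {r y x t : ℝ} {a b : ℂ} {c : ℝ} (h : (a + b).im = 0) :
    (QD r y x a b c t).im = a.im * (((vk r (t / y : ℝ)).re + (vk r (t * y : ℝ)).re) -
      ((vk r (t / x : ℝ)).re + (vk r (t * x : ℝ)).re)) / t ^ 2 := by
  have hb : b.im = -a.im := by rw [add_im] at h; linarith
  rw [QD, conj_ofReal, conj_ofReal, ← ofReal_div, ← ofReal_div, ← ofReal_mul, ← ofReal_mul,
    ← ofReal_pow, div_ofReal_im]
  simp only [sub_im, add_im, mul_im, vk_im, ofReal_im, conj_im, conj_re, hb]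
  ring

end BhP

open BhP Na2P in
theorem mirror (hC1 : S_CRIT1) (hC2 : S_CRIT2) (hN : S_NA1) {r A B y x : ℝ} {a b : ℂ} {c : ℝ}
    {κ : ℝ → ℂ} {v g : ℂ → ℝ} (hH : CH r A B y x) (hA : A < 0) (hy : r < y) (hx : y < x)
    (hC : Crit r A B y x a b c κ v g) (low : ∀ t ∈ Icc (0 : ℝ) 1, (κ t).im ≤ 0) :
    ∀ t ∈ Icc (0 : ℝ) 1, ∃ s : ℝ, 0 ≤ s ∧ κ t = s * (x : ℂ) := by
  obtain ⟨hsub, hAB, -, ⟨S, hSf, hS0⟩, -⟩ := hC1 r A B _ _ a b c κ v g hH hC
  obtain ⟨hnh, hg0, ha, -⟩ := hC2 r A B _ _ a b c κ v g hH hC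
  have r0 := hH.r0
  have y0 : 0 < y := r0.trans hy
  have x0 : 0 < x := y0.trans hx
  set K := κ '' Icc 0 1 with hKd
  have hK : IsCompact K := isCompact_Icc.image_of_continuousOn hC.cont
  have lowK : ∀ z ∈ K, z.im ≤ 0 := by
    rintro _ ⟨t, ht, rfl⟩
    exact low t ht
  have hW : IsOpen (ann r \ K) := (isOpen_ann r).sdiff hK.isClosed
  have upK : ∀ z : ℂ, 0 < z.im → z ∉ K := fun z i e => not_le.2 i (lowK z e)
  have hU : HarmonicOnNhd v (ann r ∩ upH) := fun z hz => hC.v_harm z ⟨hz.1, upK z hz.2⟩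
  obtain ⟨o1, o2⟩ := odd_v r0 hH.r1 hsub hU hC.v_cont hAB hC.v_outer
    fun p hp i => hC.v_inner p hp (upK p i)
  have o3 := odd_g hK.isClosed lowK hC.g_harm hC.g_pole hC.g_bd fun z hz e => (hg0 z hz e).1
  -- a circle outside the arc
  obtain ⟨_, ⟨t₀, ht₀, rfl⟩, hmax⟩ := hK.exists_isMaxOn ⟨_, 0, ⟨le_rfl, zero_le_one⟩, rfl⟩
    continuous_norm.continuousOn
  have m1 : ‖κ t₀‖ < 1 := by
    rcases ht₀.2.eq_or_lt with e | e
    · exact e ▸ (hC.end_neg hA).1.2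
    · exact (hC.mem t₀ ⟨ht₀.1, e⟩).2
  have xm : x ≤ ‖κ t₀‖ := by
    have := hmax ⟨0, ⟨le_rfl, zero_le_one⟩, hC.start⟩
    simpa [abs_of_pos x0] using this
  obtain ⟨q, q1, q2⟩ := exists_between m1
  have q0 : 0 < q := by linarith
  set ρ := √q with hρ
  have e0 : ρ ^ 2 = q := Real.sq_sqrt q0.le
  have ρ0 : 0 < ρ := Real.sqrt_pos.2 q0
  have ρ1 : ρ < 1 := by nlinarith
  have qρ : q < ρ := by nlinarith
  have sb : ∀ z ∈ ann (ρ ^ 2), z ∈ (ann r \ K) \ {(y : ℂ)} := fun z hz => by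
    have h1 : q < ‖z‖ := e0 ▸ hz.1
    refine ⟨⟨⟨by linarith, hz.2⟩, fun e => ?_⟩, fun e => ?_⟩
    · have : ‖z‖ ≤ ‖κ t₀‖ := hmax e
      linarith
    · rw [show z = y from e, norm_real, Real.norm_of_nonneg y0.le] at h1
      linarith
  have nρ : ‖(ρ : ℂ)‖ = ρ := by rw [norm_real, Real.norm_of_nonneg ρ0.le]
  have mρ := sb ρ ⟨by rw [nρ]; linarith, by rwa [nρ]⟩
  have v1 := radial ρ0 ρ1 (fun z hz => hC.v_harm z (sb z hz).1) (fun z hz => (hAB z (sb z hz).1.1).1)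
    fun p hp => (hC.v_outer p hp).mono_left (nhdsWithin_mono _ fun z hz => (sb z hz).1.1)
  have g1 := radial ρ0 ρ1 (fun z hz => hC.g_harm z (sb z hz))
    (fun z hz => (hg0 z (sb z hz).1 (sb z hz).2).1) fun p hp => (hC.g_bd p (by
      rw [hW.frontier_eq]
      refine ⟨closure_mono (fun z hz => (sb z hz).1) ?_, fun h => h.1.2.ne hp⟩
      rw [closure_ann (by positivity) (by linarith)]
      exact ⟨by rw [hp]; linarith, hp.le⟩)).mono_left (nhdsWithin_mono _ fun z hz => (sb z hz).1)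
  have v2 := deriv_lb (c := 0) (harm_diff (hC.v_harm _ mρ.1)) (ofReal_im ρ)
    ((up_mem hW mρ.1).mono fun τ h => by simpa only [zero_mul] using o2 _ ⟨h.1.1, h.2.2⟩)
  have g2 := deriv_lb (c := 0) (harm_diff (hC.g_harm _ mρ)) (ofReal_im ρ)
    ((up_mem hW mρ.1).mono fun τ h => by linarith [o3 _ ⟨h.1.1, h.2.2⟩ h.2.1.2])
  have pr := congrArg im (hC.prod _ mρ.1 mρ.2)
  rw [QD_im hC.bal, mul_im] at pr
  have a0 : 0 ≤ a.im := by
    have h1 := sub_pos.2 (even_lt r0 hy hx (show x < ρ by linarith) ρ1)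
    have h2 : 0 ≤ (grad v ρ).re * (grad g ρ).im + (grad v ρ).im * (grad g ρ).re :=
      add_nonneg (mul_nonneg_of_nonpos_of_nonpos v1 (by linarith))
        (mul_nonneg_of_nonpos_of_nonpos (by linarith) g1)
    rw [pr, le_div_iff₀ (by positivity), zero_mul] at h2
    exact nonneg_of_mul_nonneg_left h2 h1
  have a1 : 0 ≤ (grad v y).im := by
    rw [ha, div_ofNat_im, im_ofReal_mul] at a0
    exact nonneg_of_mul_nonneg_right (by linarith) y0
  have my : (y : ℂ) ∈ ann r \ K := ⟨hH.m0, hC.avoid⟩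
  have sym : ∀ z ∈ ann r ∩ upH, v (conj z) = v z := by
    intro z hz
    by_contra hne
    have hp : 0 < v z - v (conj z) := lt_of_le_of_ne (o2 z hz) fun e => hne (by linarith)
    have ca : ∀ w ∈ ann r, ContinuousAt v w := fun w hw =>
      hC.v_cont.continuousAt ((isOpen_ann r).mem_nhds hw)
    have hc : ContinuousAt (fun w => v w - v (conj w)) z :=
      (ca z hz.1).sub ((ca _ (conj_mem_ann.2 hz.1)).comp continuous_conj.continuousAt)
    obtain ⟨s, hs, hb⟩ := Sub2P.ex_ball (inter_mem ((isOpen_U r).mem_nhds hz)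
      (hc.eventually (lt_mem_nhds (half_lt_self hp))))
    obtain ⟨c', hc', h⟩ := hN r y z s _ r0 hH.m0 (ofReal_im y) hs (fun w hw => (hb hw).1)
      (half_pos hp)
    have := deriv_lb (harm_diff (hC.v_harm _ my)) (ofReal_im y)
      (h _ o1 o2 fun w hw => le_of_lt (hb hw).2)
    linarith
  have real : ∀ t ∈ Icc (0 : ℝ) 1, (conj (κ t)).im ≤ 0 := by
    refine ConfP.im_le (κ := fun t => conj (κ t)) (continuous_conj.comp_continuousOn hC.cont)
      (fun s hs t ht e => hC.inj hs ht (star_injective e)) (hSf.image fun z => conj z)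
      fun t ht htS => ?_
    by_contra hpos
    rw [not_le] at hpos
    have hm' := hC.mem t ⟨ht.1.le, ht.2⟩
    have ev : ∀ᶠ z in 𝓝 (κ t), z ∈ ann r → v (conj z) = v z := by
      filter_upwards [continuous_conj.continuousAt.eventually (isOpen_upH.mem_nhds hpos)]
        with z hz hz' using by simpa using (sym _ ⟨conj_mem_ann.2 hz', hz⟩).symm
    rcases hm'.1.eq_or_lt with hr | hr
    · have e1 := hS0 t (Ioo_subset_Icc_self ht) hr.symm fun e => htS ⟨_, e, rfl⟩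
      have e2 := (hC.v_inner _ (by rw [norm_conj, hr]) (upK _ hpos)).comp
        (tend_conj (fun z hz => conj_mem_ann.2 hz) (κ t))
      have hne : (𝓝[ann r] (κ t)).NeBot := mem_closure_iff_nhdsWithin_neBot.1 (by
        rw [closure_ann r0 hH.r1]
        exact ⟨hm'.1, hm'.2.le⟩)
      refine hH.B0.ne' (tendsto_nhds_unique (e2.congr' ?_) e1)
      filter_upwards [nhdsWithin_le_nhds ev, self_mem_nhdsWithin] with z h1 h2 using h1 h2
    · refine hnh t ht hr ((harmonicAt_congr_nhds ?_).1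
        (harm_conj (hU _ ⟨conj_mem_ann.2 ⟨hr, hm'.2⟩, hpos⟩)))
      filter_upwards [ev, (isOpen_ann r).mem_nhds ⟨hr, hm'.2⟩] with z h1 h2 using h1 h2
  have im0 : ∀ t ∈ Icc (0 : ℝ) 1, (κ t).im = 0 := fun t ht => by
    have := real t ht
    rw [conj_im] at this
    linarith [low t ht]
  intro t ht
  have re0 : 0 ≤ (κ t).re := by
    by_contra hneg
    obtain ⟨s, hs, e⟩ := intermediate_value_Icc' ht.1 (f := fun s => (κ s).re)
      ((continuous_re.comp_continuousOn hC.cont).mono (Icc_subset_Icc_right ht.2))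
      (show y ∈ Icc (κ t).re (κ 0).re from ⟨by linarith, by rw [hC.start]; exact hx.le⟩)
    have hs' : s ∈ Icc (0 : ℝ) 1 := ⟨hs.1, hs.2.trans ht.2⟩
    exact hC.avoid ⟨s, hs', Complex.ext e (im0 s hs')⟩
  refine ⟨(κ t).re / x, div_nonneg re0 x0.le, ?_⟩
  rw [← ofReal_mul, div_mul_cancel₀ _ x0.ne']
  exact Complex.ext rfl (im0 t ht)

end Pool.Agent.P.MP_3bd355_an
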